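import Pool.Agent.Helper70.SK.Stmts
import Pool.Agent.Helper70.SK.Lib

/-! Module LOWP: the lower bound holds for all but few heights. -/

namespace Pool.Agent.Helper70.SK

open Finset Pool.Agent.Helper70.DK

theorem st_LOWP : ST_LOWP := by
  intro m q B R κ D e hLow C ε hC hε
  obtain ⟨L0, hL0⟩ := hLow (C / ε) ε (div_nonneg hC hε.le) hε
  refine ⟨L0, ?_⟩
  intro σ hσ L hL hLn
  by_contra hcon
  push Not at hcon
  set G' := σ.G.filter (fun γ => σ.h B γ L < (e - ε) * L * Real.log B) with hG'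
  have hGpos : (0 : ℝ) < σ.G.card := by
    exact_mod_cast Finset.card_pos.mpr hσ.ne
  have hG'pos : (0 : ℝ) < (G'.card : ℝ) := lt_trans (mul_pos hε hGpos) hcon
  have hG'ne : G'.Nonempty := Finset.card_pos.mp (by exact_mod_cast hG'pos)
  have hsub : G' ⊆ σ.G := Finset.filter_subset _ _
  have hOk : ({ σ with G := G' } : Sy m q).Ok B R κ D (C / ε) := by
    refine ⟨hG'ne, hσ.n1, hσ.n3, fun γ hγ => hσ.tb γ (hsub hγ), fun γ hγ => hσ.nb γ (hsub hγ),
      fun γ hγ => hσ.nd γ (hsub hγ), ?_, hσ.st⟩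
    intro t0 j hj
    have h1 := hσ.fr t0 j hj
    have h2 : ((G'.filter (fun γ => |σ.t γ - t0| ≤ (B : ℤ) ^ (σ.a3 - j))).card : ℝ) ≤
        ((σ.G.filter (fun γ => |σ.t γ - t0| ≤ (B : ℤ) ^ (σ.a3 - j))).card : ℝ) := by
      exact_mod_cast Finset.card_le_card (Finset.filter_subset_filter _ hsub)
    have h3 : (0 : ℝ) ≤ (B : ℝ) ^ j := by positivity
    have h4 : C * (σ.G.card : ℝ) ≤ C / ε * (G'.card : ℝ) := by
      rw [div_mul_eq_mul_div, le_div_iff₀ hε]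
      nlinarith [mul_le_mul_of_nonneg_left hcon.le hC]
    calc ((G'.filter (fun γ => |σ.t γ - t0| ≤ (B : ℤ) ^ (σ.a3 - j))).card : ℝ) * (B : ℝ) ^ j
        ≤ ((σ.G.filter (fun γ => |σ.t γ - t0| ≤ (B : ℤ) ^ (σ.a3 - j))).card : ℝ) * (B : ℝ) ^ j :=
          mul_le_mul_of_nonneg_right h2 h3
      _ ≤ C * σ.G.card := h1
      _ ≤ C / ε * (G'.card : ℝ) := h4
  have h5 := hL0 _ hOk L hL hLn
  have h6 : (e - ε) * L * Real.log B * (G'.card : ℝ) ≤ ∑ γ ∈ G', σ.h B γ L := h5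
  have h7 : ∑ γ ∈ G', σ.h B γ L < ∑ _γ ∈ G', (e - ε) * L * Real.log B := by
    refine Finset.sum_lt_sum_of_nonempty hG'ne ?_
    intro γ hγ
    exact (Finset.mem_filter.mp hγ).2
  rw [Finset.sum_const, nsmul_eq_mul] at h7
  linarith [mul_comm ((e - ε) * L * Real.log B) (G'.card : ℝ)]

end Pool.Agent.Helper70.SK
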