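import Pool.Agent.Helper70.SK.Stmts
import Pool.Agent.Helper70.SK.Lib

/-! Module UDOM: the corner of the cell containing a given point is uniformly distributed. -/

namespace Pool.Agent.Helper70.SK

open Finset Pool.Agent.Helper70.DK

theorem udom_cnt (M s : ℕ) (a c : ℤ) (hs : 0 < s) (hd : s ∣ M) (hc0 : 0 ≤ c) (hc1 : c < s) :
    ((Finset.Ico (0 : ℤ) (M : ℤ)).filter (fun u => (a + u) % (s : ℤ) = c)).card = M / s := by
  have hs' : (0 : ℤ) < (s : ℤ) := by exact_mod_cast hs
  have h1 : (Finset.Ico (0 : ℤ) (M : ℤ)).filter (fun u => (a + u) % (s : ℤ) = c) =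
      (Finset.Ico (0 : ℤ) (M : ℤ)).filter (fun u => u ≡ c - a [ZMOD (s : ℤ)]) := by
    apply Finset.filter_congr
    intro u _
    constructor
    · intro h
      have h2 : a + u ≡ c [ZMOD (s : ℤ)] := by
        rw [← h]
        exact (Int.mod_modEq _ _).symm
      have h3 := h2.sub_right a
      have h4 : a + u - a = u := by ring
      rw [h4] at h3
      exact h3
    · intro h
      have h3 := h.add_left a
      have h4 : a + (c - a) = c := by ring
      rw [h4] at h3
      rw [h3]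
      exact Int.emod_eq_of_lt hc0 hc1
  rw [h1]
  have h5 := Int.Ico_filter_modEq_card (0 : ℤ) (M : ℤ) hs' (c - a)
  obtain ⟨k, hk⟩ := hd
  have hM : M / s = k := by
    rw [hk]
    exact Nat.mul_div_cancel_left k hs
  rw [hM]
  have h6 : (⌈(((M : ℤ) : ℚ) - ((c - a : ℤ) : ℚ)) / ((s : ℤ) : ℚ)⌉ : ℤ) =
      ⌈(((0 : ℤ) : ℚ) - ((c - a : ℤ) : ℚ)) / ((s : ℤ) : ℚ)⌉ + (k : ℤ) := by
    have h7 : (((M : ℤ) : ℚ) - ((c - a : ℤ) : ℚ)) / ((s : ℤ) : ℚ) =
        (((0 : ℤ) : ℚ) - ((c - a : ℤ) : ℚ)) / ((s : ℤ) : ℚ) + (k : ℚ) := by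
      have hs2 : ((s : ℤ) : ℚ) ≠ 0 := by exact_mod_cast hs'.ne'
      field_simp
      rw [hk]
      push_cast
      ring
    rw [h7]
    exact Int.ceil_add_natCast _ _
  have h8 : (((Finset.Ico (0 : ℤ) (M : ℤ)).filter (fun u => u ≡ c - a [ZMOD (s : ℤ)])).card : ℤ) = k := by
    rw [h5, h6]
    have h9 : ∀ z : ℤ, max (z + (k : ℤ) - z) 0 = (k : ℤ) := by
      intro z
      rw [add_sub_cancel_left]
      exact max_eq_left (Int.natCast_nonneg k)
    exact h9 _
  exact_mod_cast h8

theorem st_UDOM : ST_UDOM := by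
  intro q M s y v F hs hd
  classical
  have hs' : (0 : ℤ) < (s : ℤ) := by exact_mod_cast hs
  have hkey : ∀ (u : Fin q → ℤ) (r : Fin q),
      (s : ℤ) * ((y r + v r + u r) / (s : ℤ)) - u r - v r = y r - (y r + v r + u r) % (s : ℤ) := by
    intro u r
    have := Int.mul_ediv_add_emod (y r + v r + u r) (s : ℤ)
    linarith
  have hmaps : ∀ u ∈ gr q M, (fun r => (s : ℤ) * ((y r + v r + u r) / (s : ℤ)) - u r - v r) ∈ Bx (s : ℤ) y := by
    intro u _
    unfold Bx
    rw [Fintype.mem_piFinset]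
    intro r
    rw [Finset.mem_Ioc, hkey u r]
    have h1 := Int.emod_nonneg (y r + v r + u r) hs'.ne'
    have h2 := Int.emod_lt_of_pos (y r + v r + u r) hs'
    constructor <;> linarith
  rw [← Finset.sum_fiberwise_of_maps_to hmaps, Finset.mul_sum]
  apply Finset.sum_congr rfl
  intro S hS
  have hS' : ∀ r, S r ∈ Finset.Ioc (y r - (s : ℤ)) (y r) := by
    unfold Bx at hS
    rwa [Fintype.mem_piFinset] at hS
  have h1 : ∀ u ∈ (gr q M).filter
      (fun u => (fun r => (s : ℤ) * ((y r + v r + u r) / (s : ℤ)) - u r - v r) = S),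
      F (fun r => (s : ℤ) * ((y r + v r + u r) / (s : ℤ)) - u r - v r) = F S := by
    intro u hu
    rw [(Finset.mem_filter.mp hu).2]
  rw [Finset.sum_congr rfl h1, Finset.sum_const, nsmul_eq_mul]
  have h2 : (gr q M).filter
      (fun u => (fun r => (s : ℤ) * ((y r + v r + u r) / (s : ℤ)) - u r - v r) = S) =
      Fintype.piFinset (fun r => (Finset.Ico (0 : ℤ) (M : ℤ)).filter
        (fun u => (y r + v r + u) % (s : ℤ) = y r - S r)) := by
    ext u
    rw [Finset.mem_filter, Fintype.mem_piFinset]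
    unfold gr
    rw [Fintype.mem_piFinset]
    constructor
    · intro h r
      rw [Finset.mem_filter]
      refine ⟨h.1 r, ?_⟩
      have h3 : (s : ℤ) * ((y r + v r + u r) / (s : ℤ)) - u r - v r = S r := congrFun h.2 r
      rw [hkey u r] at h3
      linarith
    · intro h
      refine ⟨fun r => (Finset.mem_filter.mp (h r)).1, ?_⟩
      funext r
      have h3 := (Finset.mem_filter.mp (h r)).2
      rw [hkey u r]
      linarith
  rw [h2, Fintype.card_piFinset]
  have h3 : ∀ r ∈ (Finset.univ : Finset (Fin q)), ((Finset.Ico (0 : ℤ) (M : ℤ)).filter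
        (fun u => (y r + v r + u) % (s : ℤ) = y r - S r)).card = M / s := by
    intro r _
    have h4 := Finset.mem_Ioc.mp (hS' r)
    apply udom_cnt M s (y r + v r) (y r - S r) hs hd
    · linarith [h4.2]
    · linarith [h4.1]
  rw [Finset.prod_congr rfl h3, Finset.prod_const, Finset.card_univ, Fintype.card_fin]
  push_cast
  ring

end Pool.Agent.Helper70.SK
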